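import Pool.Agent.K3h27.GL.POI

set_option autoImplicit false

open MeasureTheory Set Filter Topology
open scoped ENNReal NNReal

namespace Pool.Agent.K3h27.GL

open Pool.Agent.K3h74.GL

/-- The Poisson kernel. -/
noncomputable def pk (y x : ℝ) : ℝ := (1 / Real.pi) * (y / (x ^ 2 + y ^ 2))

theorem pk_nonneg {y : ℝ} (hy : 0 < y) (x : ℝ) : 0 ≤ pk y x := by
  unfold pk
  have := Real.pi_pos
  positivity

theorem pk_pos {y : ℝ} (hy : 0 < y) (x : ℝ) : 0 < pk y x := by
  unfold pk
  have := Real.pi_pos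
  positivity

theorem measurable_pk (y : ℝ) : Measurable (pk y) := by
  unfold pk
  fun_prop

theorem P_eq (h : ℝ → ℝ) (z y : ℝ) : P h z y = ∫ x, pk y x * h (z - x) := by
  unfold P pk
  rw [← integral_const_mul]
  congr 1
  funext x
  ring

theorem P_eq' (h : ℝ → ℝ) (z y : ℝ) : P h z y = ∫ t, pk y (z - t) * h t := by
  rw [P_eq, ← integral_sub_left_eq_self (fun t => pk y (z - t) * h t) (volume : Measure ℝ) z]
  congr 1
  funext x
  rw [sub_sub_cancel]

theorem integrable_pk {h : ℝ → ℝ} (hh : Integrable (fun t => h t / (1 + t ^ 2))) {z y : ℝ}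
    (hy : 0 < y) : Integrable (fun t => pk y (z - t) * h t) := by
  have h1 := (integrable_ker hh (ζ := ⟨z, y⟩) hy).im
  have h2 := h1.const_mul (1 / Real.pi)
  refine h2.congr (Eventually.of_forall fun t => ?_)
  show 1 / Real.pi * ((h t : ℂ) * ker ⟨z, y⟩ t).im = pk y (z - t) * h t
  rw [Complex.im_ofReal_mul]
  unfold ker pk
  have h3 : ((t : ℂ) / (1 + (t : ℂ) ^ 2)).im = 0 := by
    have : (t : ℂ) / (1 + (t : ℂ) ^ 2) = ((t / (1 + t ^ 2) : ℝ) : ℂ) := by push_cast; ring
    rw [this, Complex.ofReal_im]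
  have h4 : (1 / ((t : ℂ) - (⟨z, y⟩ : ℂ))).im = y / ((z - t) ^ 2 + y ^ 2) := by
    rw [one_div, Complex.inv_im, Complex.normSq_apply]
    simp only [Complex.sub_im, Complex.ofReal_im, Complex.sub_re, Complex.ofReal_re, zero_sub,
      neg_neg]
    congr 1
    ring
  rw [Complex.sub_im, h3, h4, sub_zero]
  ring

theorem integrable_pk' {h : ℝ → ℝ} (hh : Integrable (fun t => h t / (1 + t ^ 2))) {z y : ℝ}
    (hy : 0 < y) : Integrable (fun x => pk y x * h (z - x)) := by
  have h1 := (integrable_pk hh (z := z) hy).comp_sub_left z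
  refine h1.congr (Eventually.of_forall fun x => ?_)
  show pk y (z - (z - x)) * h (z - x) = _
  rw [sub_sub_cancel]

theorem integral_pk {y : ℝ} (hy : 0 < y) : ∫ x, pk y x = 1 := by
  unfold pk
  rw [integral_const_mul]
  have h1 : (fun x : ℝ => y / (x ^ 2 + y ^ 2)) = fun x : ℝ => y⁻¹ * (1 + (x / y) ^ 2)⁻¹ := by
    funext x
    field_simp
    ring
  rw [h1, integral_const_mul, Measure.integral_comp_div (fun u : ℝ => (1 + u ^ 2)⁻¹) y,
    integral_univ_inv_one_add_sq, abs_of_pos hy, smul_eq_mul]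
  have := Real.pi_pos
  field_simp

theorem integrable_one : Integrable (fun t : ℝ => (1 : ℝ) / (1 + t ^ 2)) := by
  simpa [one_div] using integrable_inv_one_add_sq

theorem integrable_pk_one {y : ℝ} (hy : 0 < y) : Integrable (pk y) := by
  have := integrable_pk' integrable_one (z := 0) hy
  simpa using this

theorem lintegral_pk {y : ℝ} (hy : 0 < y) : ∫⁻ x, ENNReal.ofReal (pk y x) = 1 := by
  rw [← ofReal_integral_eq_lintegral_ofReal (integrable_pk_one hy)
    (Eventually.of_forall fun x => pk_nonneg hy x), integral_pk hy, ENNReal.ofReal_one]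

theorem P_one (z : ℝ) {y : ℝ} (hy : 0 < y) : P (fun _ => 1) z y = 1 := by
  rw [P_eq]
  simp [integral_pk hy]

theorem P_pos {h : ℝ → ℝ} (hh : Integrable (fun t => h t / (1 + t ^ 2))) (hpos : ∀ t, 0 < h t)
    (z : ℝ) {y : ℝ} (hy : 0 < y) : 0 < P h z y := by
  rw [P_eq', integral_pos_iff_support_of_nonneg
    (fun t => mul_nonneg (pk_nonneg hy _) (hpos t).le) (integrable_pk hh hy)]
  have : Function.support (fun t => pk y (z - t) * h t) = univ := by
    ext t
    simp only [Function.mem_support, mem_univ, iff_true]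
    exact (mul_pos (pk_pos hy _) (hpos t)).ne'
  rw [this]
  simp

/-- The Cauchy-Schwarz inequality for Poisson integrals. -/
theorem P_sq_le {f w : ℝ → ℝ} (hw : ∀ x, 0 < w x)
    (hf : Integrable (fun t => f t / (1 + t ^ 2)))
    (hF : Integrable (fun t => f t ^ 2 * w t / (1 + t ^ 2)))
    (hV : Integrable (fun t => (w t)⁻¹ / (1 + t ^ 2))) (z : ℝ) {y : ℝ} (hy : 0 < y) :
    P f z y ^ 2 ≤ P (fun t => f t ^ 2 * w t) z y * P (fun t => (w t)⁻¹) z y := by
  have h1 : ∀ s : ℝ, 0 ≤ P (fun t => f t ^ 2 * w t) z y * (s * s) + (2 * P f z y) * s +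
      P (fun t => (w t)⁻¹) z y := by
    intro s
    have i1 := (integrable_pk hF (z := z) hy).const_mul (s * s)
    have i2 := (integrable_pk hf (z := z) hy).const_mul (2 * s)
    have i3 := integrable_pk hV (z := z) hy
    have e : P (fun t => f t ^ 2 * w t) z y * (s * s) + (2 * P f z y) * s +
      P (fun t => (w t)⁻¹) z y = ∫ t, (s * s) * (pk y (z - t) * (f t ^ 2 * w t)) +
        (2 * s) * (pk y (z - t) * f t) + pk y (z - t) * (w t)⁻¹ := by
      have i12 : Integrable (fun t => (s * s) * (pk y (z - t) * (f t ^ 2 * w t)) +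
        (2 * s) * (pk y (z - t) * f t)) := i1.add i2
      rw [integral_add i12 i3, integral_add i1 i2, integral_const_mul, integral_const_mul,
        P_eq' (fun t => f t ^ 2 * w t), P_eq' f, P_eq' (fun t => (w t)⁻¹)]
      ring
    rw [e]
    apply integral_nonneg
    intro t
    have h2 : (s * s) * (pk y (z - t) * (f t ^ 2 * w t)) +
        (2 * s) * (pk y (z - t) * f t) + pk y (z - t) * (w t)⁻¹ =
        pk y (z - t) * (w t)⁻¹ * (s * f t * w t + 1) ^ 2 := by
      have := (hw t).ne'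
      field_simp
      ring
    show 0 ≤ (s * s) * (pk y (z - t) * (f t ^ 2 * w t)) +
        (2 * s) * (pk y (z - t) * f t) + pk y (z - t) * (w t)⁻¹
    rw [h2]
    have h3 := pk_nonneg hy (z - t)
    have h4 := (hw t).le
    positivity
  have h2 := discrim_le_zero h1
  unfold discrim at h2
  nlinarith

theorem lintegral_P_le {h : ℝ → ℝ} (hm : Measurable h) (h0 : ∀ t, 0 ≤ h t)
    (hh : Integrable (fun t => h t / (1 + t ^ 2))) {y : ℝ} (hy : 0 < y) :
    ∫⁻ z, ENNReal.ofReal (P h z y) = ∫⁻ t, ENNReal.ofReal (h t) := by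
  have h1 : ∀ z, ENNReal.ofReal (P h z y) =
      ∫⁻ x, ENNReal.ofReal (pk y x) * ENNReal.ofReal (h (z - x)) := by
    intro z
    rw [P_eq, ofReal_integral_eq_lintegral_ofReal (integrable_pk' hh hy)
      (Eventually.of_forall fun x => mul_nonneg (pk_nonneg hy x) (h0 _))]
    refine lintegral_congr fun x => ?_
    rw [ENNReal.ofReal_mul (pk_nonneg hy x)]
  simp_rw [h1]
  rw [lintegral_lintegral_swap]
  · have h2 : ∀ x, ∫⁻ z, ENNReal.ofReal (pk y x) * ENNReal.ofReal (h (z - x)) =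
        ENNReal.ofReal (pk y x) * ∫⁻ t, ENNReal.ofReal (h t) := by
      intro x
      rw [lintegral_const_mul _ (by fun_prop)]
      congr 1
      exact lintegral_sub_right_eq_self (fun t => ENNReal.ofReal (h t)) x
    simp_rw [h2]
    rw [lintegral_mul_const _ (measurable_pk y).ennreal_ofReal, lintegral_pk hy, one_mul]
  · apply Measurable.aemeasurable
    have := measurable_pk y
    unfold Function.uncurry
    fun_prop

theorem t_A2 : S_POI → S_BELL → S_GREEN → S_A2 := by
  intro hPOI hBELL hGREEN Q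
  obtain ⟨C₀, hC₀, hG⟩ := hGREEN
  refine ⟨C₀ * ENNReal.ofReal (Q + 6 * Q ^ 3), ENNReal.mul_ne_top hC₀ ENNReal.ofReal_ne_top, ?_⟩
  intro w hwm hw hW hV hQ f hfm hf2
  have hone : ∀ t : ℝ, (0:ℝ) < 1 + t ^ 2 := fun t => by positivity
  have hF : Integrable (fun t => f t ^ 2 * w t / (1 + t ^ 2)) := by
    refine hf2.mono' (Measurable.aestronglyMeasurable (by fun_prop))
      (Eventually.of_forall fun t => ?_)
    have h1 : 0 ≤ f t ^ 2 * w t := mul_nonneg (sq_nonneg _) (hw t).le
    rw [Real.norm_of_nonneg (div_nonneg h1 (hone t).le)]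
    exact div_le_self h1 (by nlinarith [sq_nonneg t])
  have hf : Integrable (fun t => f t / (1 + t ^ 2)) := by
    refine (hF.add hV).mono' (Measurable.aestronglyMeasurable (by fun_prop))
      (Eventually.of_forall fun t => ?_)
    simp only [Pi.add_apply]
    rw [norm_div, Real.norm_of_nonneg (hone t).le, ← add_div]
    apply div_le_div_of_nonneg_right _ (hone t).le
    rw [Real.norm_eq_abs]
    have h2 := hw t
    have h3 : |f t| * (2 * w t) ≤ (f t ^ 2 * w t + (w t)⁻¹) * w t := by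
      have h4 : (f t ^ 2 * w t + (w t)⁻¹) * w t = (|f t| * w t) ^ 2 + 1 := by
        rw [mul_pow, sq_abs]
        field_simp
      rw [h4]
      nlinarith [sq_nonneg (|f t| * w t - 1)]
    have h5 : |f t| * w t ≤ (f t ^ 2 * w t + (w t)⁻¹) * w t := by
      nlinarith [abs_nonneg (f t)]
    exact le_of_mul_le_mul_right h5 h2
  obtain ⟨ΦF, hF1, hF2, -⟩ := hPOI (fun t => f t ^ 2 * w t) (by fun_prop) hF
  obtain ⟨Φf, hf1, hf2', hf3⟩ := hPOI f hfm hf
  obtain ⟨ΦW, hW1, hW2, -⟩ := hPOI w hwm hW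
  obtain ⟨ΦV, hV1, hV2, -⟩ := hPOI (fun t => (w t)⁻¹) (by fun_prop) hV
  obtain ⟨b, bz, bzz, by', byy, c1, c2, c3, d1, d2, d3, d4, hb⟩ := hBELL Q ΦF Φf ΦW ΦV
    (fun ζ hζ => (hF1 ζ hζ).differentiableAt.differentiableWithinAt)
    (fun ζ hζ => (hf1 ζ hζ).differentiableAt.differentiableWithinAt)
    (fun ζ hζ => (hW1 ζ hζ).differentiableAt.differentiableWithinAt)
    (fun ζ hζ => (hV1 ζ hζ).differentiableAt.differentiableWithinAt) (by
      intro ζ hζ
      rw [hF2 ζ hζ, hf2' ζ hζ, hW2 ζ hζ, hV2 ζ hζ]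
      refine ⟨P_pos hW hw _ hζ, P_pos hV (fun t => inv_pos.2 (hw t)) _ hζ, ?_, hQ _ _ hζ,
        P_sq_le hw hf hF hV _ hζ⟩
      have h1 := P_sq_le (f := fun _ => 1) hw integrable_one (by simpa using hW) hV ζ.re hζ
      rw [P_one _ hζ] at h1
      simpa using h1)
  have h1 := hG b bz bzz by' byy c1 c2 c3 d1 d2 d3 d4 (fun z y hy => (hb z y hy).1) (by
      intro z y hy
      refine le_trans ?_ (hb z y hy).2.2
      have := P_pos hW hw z hy
      rw [hW2 ⟨z, y⟩ hy]
      positivity) (ENNReal.ofReal (Q + 6 * Q ^ 3) * ∫⁻ t, ENNReal.ofReal (f t ^ 2 * w t)) (by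
      intro y hy
      rw [← lintegral_P_le (h := fun t => f t ^ 2 * w t) (by fun_prop)
        (fun t => mul_nonneg (sq_nonneg _) (hw t).le) hF hy]
      rw [← lintegral_const_mul' _ _ ENNReal.ofReal_ne_top]
      refine lintegral_mono fun z => ?_
      have h2 := (hb z y hy).2.1
      rw [hF2 ⟨z, y⟩ hy] at h2
      refine (ENNReal.ofReal_le_ofReal h2).trans (le_of_eq ?_)
      have hQ1 : 1 ≤ Q := by
        have h1 := P_sq_le (f := fun _ => 1) hw integrable_one (by simpa using hW) hV z hy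
        rw [P_one _ hy] at h1
        have h3 := hQ z y hy
        have h4 : (1:ℝ) ≤ P w z y * P (fun t => (w t)⁻¹) z y := by simpa using h1
        linarith
      rw [ENNReal.ofReal_mul (by positivity)])
  rw [mul_assoc]
  refine le_trans ?_ h1
  refine lintegral_mono fun z => setLIntegral_mono_ae' measurableSet_Ioi
    (Eventually.of_forall fun y hy => ?_)
  have hy' : (0:ℝ) < y := hy
  apply ENNReal.ofReal_le_ofReal
  apply mul_le_mul_of_nonneg_left _ hy'.le
  have h2 := (hb z y hy').2.2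
  rw [hW2 ⟨z, y⟩ hy', ← hf3 ⟨z, y⟩ hy'] at h2
  exact h2

end Pool.Agent.K3h27.GL
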