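import Pool.Agent.K3h74.GL.Stm

set_option autoImplicit false

open MeasureTheory Set Filter Topology
open scoped ENNReal NNReal

namespace Pool.Agent.K3h27.GL

open Pool.Agent.K3h74.GL

/-- The comparison of `1 + t ^ 2` and `‖t - ζ‖ ^ 2`. -/
theorem one_add_sq_le {ζ : ℂ} {A b : ℝ} (hA : |ζ.re| ≤ A) (hb : 0 < b) (hbz : b ≤ ζ.im) (t : ℝ) :
    1 + t ^ 2 ≤ (2 + (2 * A ^ 2 + 1) / b ^ 2) * ‖(t : ℂ) - ζ‖ ^ 2 := by
  have h1 : ‖(t : ℂ) - ζ‖ ^ 2 = (t - ζ.re) ^ 2 + ζ.im ^ 2 := by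
    rw [← Complex.normSq_eq_norm_sq, Complex.normSq_apply]
    simp only [Complex.sub_re, Complex.ofReal_re, Complex.sub_im, Complex.ofReal_im]
    ring
  rw [h1]
  have h2 : ζ.re ^ 2 ≤ A ^ 2 := by
    rw [← sq_abs]
    exact pow_le_pow_left₀ (abs_nonneg _) hA 2
  have h3 : b ^ 2 ≤ ζ.im ^ 2 := pow_le_pow_left₀ hb.le hbz 2
  have h4 : (2 * A ^ 2 + 1) ≤ (2 * A ^ 2 + 1) / b ^ 2 * ζ.im ^ 2 := by
    rw [div_mul_eq_mul_div, le_div_iff₀ (by positivity)]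
    exact mul_le_mul_of_nonneg_left h3 (by positivity)
  have h5 : 0 ≤ (2 * A ^ 2 + 1) / b ^ 2 * (t - ζ.re) ^ 2 := by positivity
  have h6 : 0 ≤ (t - 2 * ζ.re) ^ 2 := sq_nonneg _
  nlinarith [sq_nonneg ζ.im]

theorem sub_ne {ζ : ℂ} (hζ : 0 < ζ.im) (t : ℝ) : (t : ℂ) - ζ ≠ 0 := by
  intro h
  have := congrArg Complex.im h
  simp at this
  linarith

/-- The kernel. -/
noncomputable def ker (ζ : ℂ) (t : ℝ) : ℂ := 1 / ((t : ℂ) - ζ) - (t : ℂ) / (1 + (t : ℂ) ^ 2)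

theorem one_add_sq_ne (t : ℝ) : (1 : ℂ) + (t : ℂ) ^ 2 ≠ 0 := by
  have : (1 : ℂ) + (t : ℂ) ^ 2 = ((1 + t ^ 2 : ℝ) : ℂ) := by push_cast; ring
  rw [this]
  exact_mod_cast (by positivity : (1 + t ^ 2 : ℝ) ≠ 0)

theorem ker_eq {ζ : ℂ} (hζ : 0 < ζ.im) (t : ℝ) :
    ker ζ t = ((1 + t * ζ) / ((t : ℂ) - ζ)) * ((1 + t ^ 2 : ℝ) : ℂ)⁻¹ := by
  unfold ker
  have h1 := sub_ne hζ t
  have h2 := one_add_sq_ne t
  push_cast
  field_simp
  ring

theorem ratio_bound {ζ : ℂ} (hζ : 0 < ζ.im) (t : ℝ) :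
    ‖(1 + t * ζ) / ((t : ℂ) - ζ)‖ ≤
      (1 + ‖ζ‖) * Real.sqrt (2 * (2 + (2 * |ζ.re| ^ 2 + 1) / ζ.im ^ 2)) := by
  have h1 := sub_ne hζ t
  have h0 : 0 < ‖(t : ℂ) - ζ‖ := norm_pos_iff.2 h1
  rw [norm_div, div_le_iff₀ h0]
  have h2 : ‖(1 : ℂ) + t * ζ‖ ≤ (1 + ‖ζ‖) * (1 + |t|) := by
    calc ‖(1 : ℂ) + t * ζ‖ ≤ ‖(1 : ℂ)‖ + ‖(t : ℂ) * ζ‖ := norm_add_le _ _
      _ = 1 + |t| * ‖ζ‖ := by rw [norm_one, norm_mul, Complex.norm_real, Real.norm_eq_abs]
      _ ≤ _ := by nlinarith [norm_nonneg ζ, abs_nonneg t]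
  refine h2.trans ?_
  rw [mul_assoc]
  refine mul_le_mul_of_nonneg_left ?_ (by positivity)
  refine (pow_le_pow_iff_left₀ (by positivity) (by positivity) two_ne_zero).1 ?_
  have h3 := one_add_sq_le (le_refl |ζ.re|) hζ (le_refl _) t
  rw [mul_pow, Real.sq_sqrt (by positivity)]
  have h4 : (1 + |t|) ^ 2 ≤ 2 * (1 + t ^ 2) := by
    nlinarith [sq_nonneg (1 - |t|), sq_abs t]
  nlinarith

theorem measurable_ker (ζ : ℂ) : Measurable (ker ζ) := by
  unfold ker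
  fun_prop

theorem integrable_ker {f : ℝ → ℝ} (hf : Integrable (fun t => f t / (1 + t ^ 2)))
    {ζ : ℂ} (hζ : 0 < ζ.im) : Integrable (fun t => (f t : ℂ) * ker ζ t) := by
  have h1 : (fun t : ℝ => (f t : ℂ) * ker ζ t) =
      fun t : ℝ => ((1 + t * ζ) / ((t : ℂ) - ζ)) * ((f t / (1 + t ^ 2) : ℝ) : ℂ) := by
    funext t
    rw [ker_eq hζ]
    push_cast
    have := one_add_sq_ne t
    field_simp
  rw [h1]
  refine Integrable.bdd_mul (c := (1 + ‖ζ‖) * Real.sqrt (2 * (2 + (2 * |ζ.re| ^ 2 + 1) / ζ.im ^ 2)))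
    hf.ofReal ?_ ?_
  · exact Measurable.aestronglyMeasurable (by fun_prop)
  · exact Eventually.of_forall fun t => ratio_bound hζ t

theorem hasDerivAt_ker {ζ : ℂ} (hζ : 0 < ζ.im) (t : ℝ) :
    HasDerivAt (fun z => ker z t) (1 / ((t : ℂ) - ζ) ^ 2) ζ := by
  unfold ker
  have h1 := sub_ne hζ t
  have h2 : HasDerivAt (fun z : ℂ => (t : ℂ) - z) (-1) ζ := by
    simpa using (hasDerivAt_id ζ).const_sub (t : ℂ)
  have h3 : HasDerivAt (fun z : ℂ => 1 / ((t : ℂ) - z)) (1 / ((t : ℂ) - ζ) ^ 2) ζ := by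
    simp only [one_div]
    refine (h2.fun_inv h1).congr_deriv ?_
    rw [neg_neg, one_div]
  exact h3.sub_const _

/-- The holomorphic function. -/
noncomputable def Phi (f : ℝ → ℝ) (ζ : ℂ) : ℂ := ((1 / Real.pi : ℝ) : ℂ) * ∫ t : ℝ, (f t : ℂ) * ker ζ t

theorem hasDerivAt_Phi {f : ℝ → ℝ} (hm : Measurable f)
    (hf : Integrable (fun t => f t / (1 + t ^ 2))) {ζ : ℂ} (hζ : 0 < ζ.im) :
    HasDerivAt (Phi f) (((1 / Real.pi : ℝ) : ℂ) * ∫ t : ℝ, (f t : ℂ) / ((t : ℂ) - ζ) ^ 2) ζ := by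
  unfold Phi
  apply HasDerivAt.const_mul
  set C : ℝ := 2 + (2 * (|ζ.re| + ζ.im / 2) ^ 2 + 1) / (ζ.im / 2) ^ 2 with hC
  have key := hasDerivAt_integral_of_dominated_loc_of_deriv_le (μ := volume) (𝕜 := ℂ)
    (F := fun z t => (f t : ℂ) * ker z t) (x₀ := ζ) (s := Metric.ball ζ (ζ.im / 2))
    (F' := fun z t => (f t : ℂ) / ((t : ℂ) - z) ^ 2)
    (bound := fun t => C * ‖f t / (1 + t ^ 2)‖)
    (Metric.ball_mem_nhds _ (by positivity)) ?_ (integrable_ker hf hζ) ?_ ?_ (hf.norm.const_mul C) ?_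
  · exact key.2
  · refine Eventually.of_forall fun z => Measurable.aestronglyMeasurable ?_
    have := measurable_ker z
    fun_prop
  · refine Measurable.aestronglyMeasurable ?_
    fun_prop
  · refine Eventually.of_forall fun t z hz => ?_
    have h1 : ‖z - ζ‖ < ζ.im / 2 := by simpa [dist_eq_norm] using hz
    have h2 : |z.im - ζ.im| < ζ.im / 2 := by
      have := Complex.abs_im_le_norm (z - ζ)
      rw [Complex.sub_im] at this
      linarith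
    have h3 : |z.re - ζ.re| < ζ.im / 2 := by
      have := Complex.abs_re_le_norm (z - ζ)
      rw [Complex.sub_re] at this
      linarith
    have h4 : ζ.im / 2 ≤ z.im := by
      have := (abs_lt.1 h2).1
      linarith
    have h5 : |z.re| ≤ |ζ.re| + ζ.im / 2 := by
      calc |z.re| = |ζ.re + (z.re - ζ.re)| := by ring_nf
        _ ≤ |ζ.re| + |z.re - ζ.re| := abs_add_le _ _
        _ ≤ _ := by linarith
    have h6 := one_add_sq_le h5 (by positivity : (0:ℝ) < ζ.im / 2) h4 t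
    have h7 : 0 < ‖(t : ℂ) - z‖ := norm_pos_iff.2 (sub_ne (by linarith) t)
    rw [norm_div, norm_pow, Complex.norm_real, norm_div, Real.norm_of_nonneg (by positivity : (0:ℝ) ≤ 1 + t ^ 2),
      ← mul_div_assoc, div_le_div_iff₀ (by positivity) (by positivity)]
    have h8 := mul_le_mul_of_nonneg_left h6 (norm_nonneg (f t))
    rw [← hC] at h8
    linarith
  · refine Eventually.of_forall fun t z hz => ?_
    have h1 : ‖z - ζ‖ < ζ.im / 2 := by simpa [dist_eq_norm] using hz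
    have h2 : |z.im - ζ.im| < ζ.im / 2 := by
      have := Complex.abs_im_le_norm (z - ζ)
      rw [Complex.sub_im] at this
      linarith
    have h4 : 0 < z.im := by
      have := (abs_lt.1 h2).1
      linarith
    refine ((hasDerivAt_ker h4 t).const_mul (f t : ℂ)).congr_deriv ?_
    rw [mul_one_div]

theorem im_Phi {f : ℝ → ℝ} (hf : Integrable (fun t => f t / (1 + t ^ 2))) {ζ : ℂ} (hζ : 0 < ζ.im) :
    (Phi f ζ).im = P f ζ.re ζ.im := by
  unfold Phi P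
  rw [Complex.im_ofReal_mul]
  congr 1
  have h1 : (∫ t : ℝ, (f t : ℂ) * ker ζ t).im = ∫ t : ℝ, ((f t : ℂ) * ker ζ t).im := by
    have := Complex.imCLM.integral_comp_comm (integrable_ker hf hζ)
    exact this.symm
  rw [h1]
  have h2 : ∀ t : ℝ, ((f t : ℂ) * ker ζ t).im =
      ζ.im * f t / ((ζ.re - t) ^ 2 + ζ.im ^ 2) := by
    intro t
    rw [Complex.im_ofReal_mul]
    unfold ker
    have h3 : ((t : ℂ) / (1 + (t : ℂ) ^ 2)).im = 0 := by
      have : (t : ℂ) / (1 + (t : ℂ) ^ 2) = ((t / (1 + t ^ 2) : ℝ) : ℂ) := by push_cast; ring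
      rw [this, Complex.ofReal_im]
    have h4 : (1 / ((t : ℂ) - ζ)).im = ζ.im / ((ζ.re - t) ^ 2 + ζ.im ^ 2) := by
      rw [one_div, Complex.inv_im, Complex.normSq_apply]
      simp only [Complex.sub_im, Complex.ofReal_im, Complex.sub_re, Complex.ofReal_re, zero_sub,
        neg_neg]
      congr 1
      ring
    rw [Complex.sub_im, h3, h4, sub_zero]
    ring
  simp_rw [h2]
  have h5 := integral_sub_left_eq_self (fun t : ℝ => ζ.im * f t / ((ζ.re - t) ^ 2 + ζ.im ^ 2))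
    (volume : Measure ℝ) ζ.re
  rw [← h5]
  congr 1
  funext x
  simp only [sub_sub_cancel]

theorem t_POI : S_POI := by
  intro f hm hf
  refine ⟨Phi f, fun ζ hζ => hasDerivAt_Phi hm hf hζ, fun ζ hζ => im_Phi hf hζ, fun ζ hζ => ?_⟩
  have hd := hasDerivAt_Phi hm hf hζ
  rw [hd.deriv]
  set Φ' := ((1 / Real.pi : ℝ) : ℂ) * ∫ t : ℝ, (f t : ℂ) / ((t : ℂ) - ζ) ^ 2 with hΦ'
  unfold gradSq
  have h1 : HasDerivAt (fun s : ℝ => P f s ζ.im) Φ'.im ζ.re := by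
    have e1 : (fun s : ℝ => P f s ζ.im) = fun s : ℝ => (Phi f ((s : ℂ) + (ζ.im : ℂ) * Complex.I)).im := by
      funext s
      rw [im_Phi hf (by simpa using hζ)]
      simp
    rw [e1]
    have e2 : HasDerivAt (fun s : ℝ => (s : ℂ) + (ζ.im : ℂ) * Complex.I) 1 ζ.re :=
      (Complex.ofRealCLM.hasDerivAt (x := ζ.re)).add_const _
    have e3 : HasDerivAt (Phi f) Φ' ((ζ.re : ℂ) + (ζ.im : ℂ) * Complex.I) := by
      rw [Complex.re_add_im]; exact hd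
    have e4 := e3.scomp ζ.re e2
    have e5 := Complex.imCLM.hasFDerivAt.comp_hasDerivAt ζ.re e4
    refine HasDerivAt.congr_deriv (f := fun s : ℝ => (Phi f ((s : ℂ) + (ζ.im : ℂ) * Complex.I)).im)
      e5 ?_
    simp
  have h2 : HasDerivAt (fun s : ℝ => P f ζ.re s) Φ'.re ζ.im := by
    have e1 : (fun s : ℝ => P f ζ.re s) =ᶠ[𝓝 ζ.im]
        fun s : ℝ => (Phi f ((ζ.re : ℂ) + (s : ℂ) * Complex.I)).im := by
      filter_upwards [lt_mem_nhds hζ] with s hs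
      rw [im_Phi hf (by simpa using hs)]
      simp
    refine HasDerivAt.congr_of_eventuallyEq ?_ e1
    have e2 : HasDerivAt (fun s : ℝ => (ζ.re : ℂ) + (s : ℂ) * Complex.I) Complex.I ζ.im := by
      have := ((Complex.ofRealCLM.hasDerivAt (x := ζ.im)).mul_const Complex.I).const_add (ζ.re : ℂ)
      simpa using this
    have e3 : HasDerivAt (Phi f) Φ' ((ζ.re : ℂ) + (ζ.im : ℂ) * Complex.I) := by
      rw [Complex.re_add_im]; exact hd
    have e4 := e3.scomp ζ.im e2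
    have e5 := Complex.imCLM.hasFDerivAt.comp_hasDerivAt ζ.im e4
    refine HasDerivAt.congr_deriv
      (f := fun s : ℝ => (Phi f ((ζ.re : ℂ) + (s : ℂ) * Complex.I)).im) e5 ?_
    simp
  rw [h1.deriv, h2.deriv, ← Complex.normSq_eq_norm_sq, Complex.normSq_apply]
  ring

end Pool.Agent.K3h27.GL
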